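import Pool.Agent.Run7.h686.QP.Rank

/-!
# MP_841a27_al: over the nonnegative rationals, shift equivalence implies strong shift equivalence
for matrices of rank at most two, of any sizes
-/

set_option autoImplicit false

namespace Pool.Agent.Results.MP_841a27_al.RankTwo

open Matrix

/-- Elementary strong shift equivalence over `ℚ≥0`: `A = S T`, `B = T S`. -/
def Elem (X Y : Σ n : ℕ, Matrix (Fin n) (Fin n) ℚ≥0) : Prop :=
  ∃ (S : Matrix (Fin X.1) (Fin Y.1) ℚ≥0) (T : Matrix (Fin Y.1) (Fin X.1) ℚ≥0),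
    X.2 = S * T ∧ Y.2 = T * S

/-- Strong shift equivalence over `ℚ≥0`: a finite chain of elementary steps. -/
def SSE {m n : ℕ} (A : Matrix (Fin m) (Fin m) ℚ≥0) (B : Matrix (Fin n) (Fin n) ℚ≥0) : Prop :=
  Relation.ReflTransGen Elem ⟨m, A⟩ ⟨n, B⟩

/-- Shift equivalence over `ℚ≥0`. -/
def SE {m n : ℕ} (A : Matrix (Fin m) (Fin m) ℚ≥0) (B : Matrix (Fin n) (Fin n) ℚ≥0) : Prop :=
  ∃ l : ℕ, 1 ≤ l ∧ ∃ (S : Matrix (Fin m) (Fin n) ℚ≥0) (T : Matrix (Fin n) (Fin m) ℚ≥0),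
    A ^ l = S * T ∧ B ^ l = T * S ∧ A * S = S * B ∧ T * A = B * T

theorem result (m n : ℕ) (A : Matrix (Fin m) (Fin m) ℚ≥0) (B : Matrix (Fin n) (Fin n) ℚ≥0)
    (hA : (A.map (NNRat.cast : ℚ≥0 → ℚ)).rank ≤ 2)
    (hB : (B.map (NNRat.cast : ℚ≥0 → ℚ)).rank ≤ 2) :
    SSE A B ↔ SE A B :=
  ⟨fun h => Pool.Agent.Run7.h686.QP.se_of_chain (fun _ _ h => h) h,
    fun h => Pool.Agent.Run7.h686.QP.chain_of_SE (fun _ _ R S => ⟨R, S, rfl, rfl⟩) A B hA hB h⟩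

end Pool.Agent.Results.MP_841a27_al.RankTwo
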